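import Mathlib

/-! Arithmetic for the simulation of the robber locating game on `G^{1/m}` by the one on
`G^{1/M}` (`MP_e58ac0_co`). -/

set_option autoImplicit false

namespace H34Rob

/-- The distance between the point at offset `s` on the edge `xy` and the point at offset `i` on the
edge `qp`, all edges having length `M`; `a, ap, b, bp` are the distances `d(x,q), d(x,p), d(y,q),
d(y,p)` in the base graph. -/
def DZ (M s i a ap b bp : ℤ) : ℤ :=
  if a = 0 ∧ bp = 0 then max (s - i) (i - s)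
  else if ap = 0 ∧ b = 0 then max (s - (M - i)) ((M - i) - s)
  else min (min (s + M * a) (M - s + M * b) + i) (min (s + M * ap) (M - s + M * bp) + (M - i))

/-- The relations between the four distances between the ends of two edges. -/
structure Quad (a ap b bp : ℤ) : Prop where
  a0 : 0 ≤ a
  ap0 : 0 ≤ ap
  b0 : 0 ≤ b
  bp0 : 0 ≤ bp
  aap : ap = a + 1 ∨ ap = a ∨ a = ap + 1
  ab : b = a + 1 ∨ b = a ∨ a = b + 1
  bbp : bp = b + 1 ∨ bp = b ∨ b = bp + 1
  apbp : bp = ap + 1 ∨ bp = ap ∨ ap = bp + 1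
  az : a = 0 → b = 1 ∧ ap = 1
  apz : ap = 0 → a = 1 ∧ bp = 1
  bz : b = 0 → a = 1 ∧ bp = 1
  bpz : bp = 0 → b = 1 ∧ ap = 1

lemma Quad.swap {a ap b bp : ℤ} (h : Quad a ap b bp) : Quad ap a bp b := by
  obtain ⟨a0, ap0, b0, bp0, aap, ab, bbp, apbp, az, apz, bz, bpz⟩ := h
  constructor <;> omega

lemma Quad.swap' {a ap b bp : ℤ} (h : Quad a ap b bp) : Quad b bp a ap := by
  obtain ⟨a0, ap0, b0, bp0, aap, ab, bbp, apbp, az, apz, bz, bpz⟩ := h
  constructor <;> omega

/-- Reversing the second edge. -/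
lemma DZ_swap (M s i a ap b bp : ℤ) (h : Quad a ap b bp) :
    DZ M s i a ap b bp = DZ M s (M - i) ap a bp b := by
  obtain ⟨a0, ap0, b0, bp0, aap, ab, bbp, apbp, az, apz, bz, bpz⟩ := h
  unfold DZ
  by_cases h1 : a = 0 ∧ bp = 0
  · have h2 : ¬ (ap = 0 ∧ b = 0) := by omega
    simp only [h1, h2, and_self, if_true, if_false]
    have e : bp = 0 ∧ a = 0 := ⟨h1.2, h1.1⟩
    simp
  · by_cases h2 : ap = 0 ∧ b = 0
    · simp only [h1, h2, and_self, if_true, if_false]
    · have h3 : ¬ (b = 0 ∧ ap = 0) := fun h => h2 ⟨h.2, h.1⟩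
      simp only [h1, h2, if_false]
      rw [min_comm]
      congr 2
      · omega

/-- `D` and `E` are the lengths of the same route in the real and in the virtual game. -/
def Rt (M s o D m s2 w E : ℤ) : Prop :=
  ∃ n : ℤ, (D = M * n + s + o ∧ E = m * n + s2 + w) ∨ (D = M * n + s - o ∧ E = m * n + s2 - w) ∨
    (D = M * n - s + o ∧ E = m * n - s2 + w) ∨ (D = M * n - s - o ∧ E = m * n - s2 - w)

/-- Two routes compare in the same way in both games. -/
lemma pc (M m u v k : ℤ) (hu : -M ≤ u) (hu' : u ≤ M) (hv : -m ≤ v) (hv' : v ≤ m)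
    (h : (0 ≤ u ∧ 0 ≤ v) ∨ (u ≤ 0 ∧ v ≤ 0)) :
    (0 ≤ M * k + u ∧ 0 ≤ m * k + v) ∨ (M * k + u ≤ 0 ∧ m * k + v ≤ 0) := by
  have hM : 0 ≤ M := by omega
  have hm : 0 ≤ m := by omega
  rcases lt_trichotomy k 0 with hk | rfl | hk
  · right
    constructor <;> nlinarith
  · simpa using h
  · left
    constructor <;> nlinarith

/-- The common minimiser: the same route is shortest in both games. -/
theorem common (M s o m s2 w a ap b bp : ℤ) (_h : Quad a ap b bp)
    (hs : 0 ≤ s) (hsM : 2 * s ≤ M) (ho : 0 ≤ o) (hoM : 2 * o ≤ M)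
    (hs2 : 0 ≤ s2) (hs2m : 2 * s2 ≤ m) (hw : 0 ≤ w) (hwm : 2 * w ≤ m)
    (side1 : (s ≤ o ∧ s2 ≤ w) ∨ (o ≤ s ∧ w ≤ s2))
    (side2 : (2 * (s + o) ≤ M ∧ 2 * (s2 + w) ≤ m) ∨ (M ≤ 2 * (s + o) ∧ m ≤ 2 * (s2 + w))) :
    Rt M s o (DZ M s o a ap b bp) m s2 w (DZ m s2 w a ap b bp) := by
  by_cases h1 : a = 0 ∧ bp = 0
  · unfold DZ
    simp only [h1, and_self, if_true]
    refine ⟨0, ?_⟩
    rcases side1 with h | h
    · right; right; left; omega
    · right; left; omega
  · by_cases h2 : ap = 0 ∧ b = 0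
    · unfold DZ
      simp only [h1, h2, and_self, if_true, if_false]
      refine ⟨1, ?_⟩
      right; right; right; omega
    · unfold DZ
      simp only [h1, h2, if_false]
      have h12 := pc M m (M - 2 * o) (m - 2 * w) (ap - a) (by omega) (by omega) (by omega)
        (by omega) (by omega)
      have h13 := pc M m (M - 2 * s) (m - 2 * s2) (b - a) (by omega) (by omega) (by omega)
        (by omega) (by omega)
      have h24 := pc M m (M - 2 * s) (m - 2 * s2) (bp - ap) (by omega) (by omega) (by omega)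
        (by omega) (by omega)
      have h34 := pc M m (M - 2 * o) (m - 2 * w) (bp - b) (by omega) (by omega) (by omega)
        (by omega) (by omega)
      have h14 := pc M m (M - 2 * (s + o)) (m - 2 * (s2 + w)) (bp - a + 1) (by omega) (by omega)
        (by omega) (by omega) (by omega)
      have h23 := pc M m (2 * o - 2 * s) (2 * w - 2 * s2) (b - ap) (by omega) (by omega)
        (by omega) (by omega) (by omega)
      simp only [mul_sub, mul_add, mul_one] at h12 h13 h24 h34 h14 h23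
      have key : ∀ n : ℤ, M * (n + 1) = M * n + M := fun n => by ring
      have key' : ∀ n : ℤ, m * (n + 1) = m * n + m := fun n => by ring
      have key2 : ∀ n : ℤ, M * (n + 2) = M * n + 2 * M := fun n => by ring
      have key2' : ∀ n : ℤ, m * (n + 2) = m * n + 2 * m := fun n => by ring
      rcases h13 with h13 | h13 <;> rcases h24 with h24 | h24
      · rw [min_eq_left (by omega : s + M * a ≤ M - s + M * b),
          min_eq_left (by omega : s + M * ap ≤ M - s + M * bp),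
          min_eq_left (by omega : s2 + m * a ≤ m - s2 + m * b),
          min_eq_left (by omega : s2 + m * ap ≤ m - s2 + m * bp)]
        rcases h12 with h12 | h12
        · exact ⟨a, Or.inl (by omega)⟩
        · exact ⟨ap + 1, Or.inr (Or.inl (by rw [key, key']; omega))⟩
      · rw [min_eq_left (by omega : s + M * a ≤ M - s + M * b),
          min_eq_right (by omega : M - s + M * bp ≤ s + M * ap),
          min_eq_left (by omega : s2 + m * a ≤ m - s2 + m * b),
          min_eq_right (by omega : m - s2 + m * bp ≤ s2 + m * ap)]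
        rcases h14 with h14 | h14
        · exact ⟨a, Or.inl (by omega)⟩
        · exact ⟨bp + 2, Or.inr (Or.inr (Or.inr (by rw [key2, key2']; omega)))⟩
      · rw [min_eq_right (by omega : M - s + M * b ≤ s + M * a),
          min_eq_left (by omega : s + M * ap ≤ M - s + M * bp),
          min_eq_right (by omega : m - s2 + m * b ≤ s2 + m * a),
          min_eq_left (by omega : s2 + m * ap ≤ m - s2 + m * bp)]
        rcases h23 with h23 | h23
        · exact ⟨ap + 1, Or.inr (Or.inl (by rw [key, key']; omega))⟩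
        · exact ⟨b + 1, Or.inr (Or.inr (Or.inl (by rw [key, key']; omega)))⟩
      · rw [min_eq_right (by omega : M - s + M * b ≤ s + M * a),
          min_eq_right (by omega : M - s + M * bp ≤ s + M * ap),
          min_eq_right (by omega : m - s2 + m * b ≤ s2 + m * a),
          min_eq_right (by omega : m - s2 + m * bp ≤ s2 + m * ap)]
        rcases h34 with h34 | h34
        · exact ⟨b + 1, Or.inr (Or.inr (Or.inl (by rw [key, key']; omega)))⟩
        · exact ⟨bp + 2, Or.inr (Or.inr (Or.inr (by rw [key2, key2']; omega)))⟩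

/-! ### Near a vertex of the base graph -/

/-- The way out of the edge `qp` towards a vertex at distances `a` from `q` and `ap` from `p`. -/
lemma half (a ap : ℤ) (h : ap = a + 1 ∨ ap = a ∨ a = ap + 1) :
    ∃ n r : ℤ, (r = 1 ∨ r = -1) ∧ ∀ M i : ℤ, 0 ≤ i → 2 * i ≤ M →
      min (M * a + i) (M * ap + (M - i)) = M * n + r * i := by
  rcases le_or_gt a ap with h1 | h1
  · refine ⟨a, 1, Or.inl rfl, fun M i hi hiM => ?_⟩
    have : M * a ≤ M * ap := mul_le_mul_of_nonneg_left h1 (by omega)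
    rw [min_eq_left (by omega), one_mul]
  · refine ⟨ap + 1, -1, Or.inr rfl, fun M i hi hiM => ?_⟩
    obtain rfl : a = ap + 1 := by omega
    have : M * (ap + 1) = M * ap + M := by ring
    rw [min_eq_right (by omega)]
    rw [this]
    ring

lemma near_gen (M m s2 o1 o2 a ap b bp : ℤ) (h : Quad a ap b bp) (hM : 28 ≤ M) (hm : 2 ≤ m)
    (hs2 : 1 ≤ s2) (hs2m : 2 * s2 ≤ m) (ho1 : 0 ≤ o1) (ho1' : o1 ≤ 4) (ho2 : 0 ≤ o2)
    (ho2' : o2 ≤ 5) :
    ∃ n n2 s r t : ℤ, (s = 1 ∨ s = -1) ∧ (r = 1 ∨ r = -1) ∧ (t = 1 ∨ t = -1) ∧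
      DZ M 6 o1 a ap b bp = M * n + s * 6 + r * o1 ∧
      DZ M 0 o2 b bp a ap = M * n2 + t * o2 ∧
      DZ m s2 0 a ap b bp = m * n + s * s2 ∧
      DZ m s2 1 a ap b bp =
        if s = 1 then min (m * n + s2 + r) (m * (n2 + 1) - s2 + t) else m * n - s2 + r := by
  have hq := h
  obtain ⟨a0, ap0, b0, bp0, aap, ab, bbp, apbp, az, apz, bz, bpz⟩ := h
  by_cases h1 : a = 0 ∧ bp = 0
  · have h2 : ¬ (b = 0 ∧ ap = 0) := by omega
    obtain ⟨rfl, rfl⟩ := h1
    have h3 := (az rfl).1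
    have h4 := (az rfl).2
    subst h3 h4
    refine ⟨0, 1, 1, -1, -1, Or.inl rfl, Or.inr rfl, Or.inr rfl, ?_, ?_, ?_, ?_⟩ <;>
      · simp [DZ]
        omega
  · by_cases h2 : ap = 0 ∧ b = 0
    · obtain ⟨rfl, rfl⟩ := h2
      have h3 := (apz rfl).1
      have h4 := (apz rfl).2
      subst h3 h4
      refine ⟨1, 0, -1, -1, 1, Or.inr rfl, Or.inr rfl, Or.inl rfl, ?_, ?_, ?_, ?_⟩ <;>
        · simp [DZ]
          omega
    · obtain ⟨nx, rx, hrx, hx⟩ := half a ap aap
      obtain ⟨ny, ry, hry, hy⟩ := half b bp bbp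
      have main : ∀ M s i : ℤ, 0 ≤ i → 2 * i ≤ M → DZ M s i a ap b bp =
          min (M * nx + rx * i + s) (M * (ny + 1) + ry * i - s) := by
        intro M s i hi hiM
        have e1 := hx M i hi hiM
        have e2 := hy M i hi hiM
        have e3 : M * (ny + 1) = M * ny + M := by ring
        unfold DZ
        simp only [h1, h2, if_false]
        rw [e3]
        omega
      have main2 : ∀ M i : ℤ, 0 ≤ i → 2 * i ≤ M → DZ M 0 i b bp a ap = M * ny + ry * i := by
        intro M i hi hiM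
        have e2 := hy M i hi hiM
        have hMi : 0 ≤ M := by omega
        unfold DZ
        have h3 : ¬ (b = 0 ∧ ap = 0) := fun h => h2 ⟨h.2, h.1⟩
        have h4 : ¬ (bp = 0 ∧ a = 0) := fun h => h1 ⟨h.2, h.1⟩
        simp only [h3, h4, if_false]
        have u1 : M * b ≤ M * (a + 1) := mul_le_mul_of_nonneg_left (by omega) hMi
        have u2 : M * bp ≤ M * (ap + 1) := mul_le_mul_of_nonneg_left (by omega) hMi
        rw [mul_add, mul_one] at u1 u2
        omega
      have hMi : 0 ≤ M := by omega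
      have hmi : 0 ≤ m := by omega
      have m1 := main M 6 o1 (by omega) (by omega)
      have m2 := main2 M o2 (by omega) (by omega)
      have m3 := main m s2 0 (by omega) (by omega)
      have m4 := main m s2 1 (by omega) (by omega)
      rcases le_or_gt (ny + 1) nx with hn | hn
      · -- the way via `y` is shorter
        refine ⟨ny + 1, ny, -1, ry, ry, Or.inr rfl, hry, hry, ?_, m2, ?_, ?_⟩
        · have u : M * (ny + 1) ≤ M * nx := mul_le_mul_of_nonneg_left hn hMi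
          rw [m1]
          rcases hrx with rfl | rfl <;> rcases hry with rfl | rfl <;> omega
        · have u : m * (ny + 1) ≤ m * nx := mul_le_mul_of_nonneg_left hn hmi
          rw [m3]
          omega
        · have u : m * (ny + 1) ≤ m * nx := mul_le_mul_of_nonneg_left hn hmi
          rw [m4, if_neg (by norm_num)]
          rcases hrx with rfl | rfl <;> rcases hry with rfl | rfl <;> omega
      · refine ⟨nx, ny, 1, rx, ry, Or.inl rfl, hrx, hry, ?_, m2, ?_, ?_⟩
        · have u : M * (nx + 1) ≤ M * (ny + 1) := mul_le_mul_of_nonneg_left (by omega) hMi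
          rw [mul_add, mul_one] at u
          rw [m1]
          rcases hrx with rfl | rfl <;> rcases hry with rfl | rfl <;> omega
        · have u : m * (nx + 1) ≤ m * (ny + 1) := mul_le_mul_of_nonneg_left (by omega) hmi
          rw [mul_add, mul_one] at u
          rw [m3]
          omega
        · rw [m4, if_pos rfl, mul_one, mul_one]
          congr 1 <;> ring

/-! ### In the middle of an edge -/

/-- `D` and `E` are the lengths of the same route in the real and in the virtual game, the robber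
being at offset `j` (real) and `top` (virtual) from the same end of his edge. -/
def Md (M s j D m s2 top E : ℤ) : Prop :=
  ∃ n : ℤ, (D = M * n + s + j ∧ E = m * n + s2 + top) ∨ (D = M * n - s + j ∧ E = m * n - s2 + top)

lemma ge_of (M k j c : ℤ) (hM : 0 < M) (h : c ≤ M * k) (hc : M * (j - 1) < c) : j ≤ k := by
  by_contra hk
  have h1 : k ≤ j - 1 := by omega
  have h2 : M * k ≤ M * (j - 1) := mul_le_mul_of_nonneg_left h1 (by omega)
  omega

lemma mid_half (M s i m s2 top a ap b bp : ℤ) (hM : 28 ≤ M)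
    (hm : 2 ≤ m) (hi : M - 9 ≤ 2 * i) (hi' : 2 * i ≤ M + 9)
    (hs : (s = 5 ∧ 1 ≤ s2) ∨ (s = 0 ∧ s2 = 0)) (hs2m : 2 * s2 ≤ m) (ht : 2 * top ≤ m)
    (ht' : m ≤ 2 * top + 1) (h1 : ¬ (a = 0 ∧ bp = 0)) (h2 : ¬ (ap = 0 ∧ b = 0))
    (hle : min (s + M * a) (M - s + M * b) + i ≤ min (s + M * ap) (M - s + M * bp) + (M - i)) :
    Md M s i (DZ M s i a ap b bp) m s2 top (DZ m s2 top a ap b bp) := by
  have hM0 : 0 < M := by omega
  have hm0 : 0 ≤ m := by omega
  unfold DZ
  simp only [h1, h2, if_false]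
  rw [min_eq_left hle]
  have h13 := pc M m (M - 2 * s) (m - 2 * s2) (b - a) (by omega) (by omega) (by omega)
    (by omega) (by omega)
  rw [mul_sub, mul_sub] at h13
  have l1 := le_trans hle (add_le_add_left (min_le_left _ _) _)
  have l2 := le_trans hle (add_le_add_left (min_le_right _ _) _)
  rcases h13 with h13 | h13
  · rw [min_eq_left (by omega : s + M * a ≤ M - s + M * b)] at l1 l2 ⊢
    rw [min_eq_left (by omega : s2 + m * a ≤ m - s2 + m * b)]
    have k1 : 0 ≤ ap - a := ge_of M (ap - a) 0 (-9) hM0 (by rw [mul_sub]; omega) (by omega)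
    have v1 : 0 ≤ m * (ap - a) := mul_nonneg hm0 k1
    rw [mul_sub] at v1
    have v2 : 2 * s2 + 2 * top ≤ m * (bp - a + 2) := by
      rcases hs with ⟨rfl, hs⟩ | ⟨rfl, rfl⟩
      · have k2 : 2 ≤ bp - a + 2 := ge_of M (bp - a + 2) 2 (M + 1) hM0
          (by rw [mul_add, mul_sub]; omega) (by omega)
        have := mul_le_mul_of_nonneg_left k2 hm0
        omega
      · have k2 : 1 ≤ bp - a + 2 := ge_of M (bp - a + 2) 1 (M - 9) hM0
          (by rw [mul_add, mul_sub]; omega) (by omega)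
        have := mul_le_mul_of_nonneg_left k2 hm0
        omega
    rw [mul_add, mul_sub] at v2
    refine ⟨a, Or.inl ⟨by omega, ?_⟩⟩
    rw [min_eq_left]
    · omega
    · omega
  · rw [min_eq_right (by omega : M - s + M * b ≤ s + M * a)] at l1 l2 ⊢
    rw [min_eq_right (by omega : m - s2 + m * b ≤ s2 + m * a)]
    have k1 : 0 ≤ bp - b := ge_of M (bp - b) 0 (-9) hM0 (by rw [mul_sub]; omega) (by omega)
    have v1 : 0 ≤ m * (bp - b) := mul_nonneg hm0 k1
    rw [mul_sub] at v1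
    have k2 : 1 ≤ ap - b := ge_of M (ap - b) 1 (M - 19) hM0
          (by rw [mul_sub]; omega) (by omega)
    have v2 := mul_le_mul_of_nonneg_left k2 hm0
    rw [mul_sub] at v2
    have e1 : M * (b + 1) = M * b + M := by ring
    have e2 : m * (b + 1) = m * b + m := by ring
    refine ⟨b + 1, Or.inr ⟨by rw [e1]; omega, ?_⟩⟩
    rw [e2, min_eq_left]
    · omega
    · omega

theorem mid (M s i m s2 top a ap b bp : ℤ) (h : Quad a ap b bp) (hM : 28 ≤ M)
    (hm : 2 ≤ m) (hi : M - 9 ≤ 2 * i) (hi' : 2 * i ≤ M + 9)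
    (hs : (s = 5 ∧ 1 ≤ s2) ∨ (s = 0 ∧ s2 = 0)) (hs2m : 2 * s2 ≤ m) (ht : 2 * top ≤ m)
    (ht' : m ≤ 2 * top + 1) :
    Md M s i (DZ M s i a ap b bp) m s2 top (DZ m s2 top a ap b bp) ∨
    Md M s (M - i) (DZ M s i a ap b bp) m s2 top (DZ m s2 top ap a bp b) := by
  by_cases h1 : a = 0 ∧ bp = 0
  · left
    refine ⟨0, Or.inr ?_⟩
    simp [DZ, h1]
    omega
  · by_cases h2 : ap = 0 ∧ b = 0
    · right
      refine ⟨0, Or.inr ?_⟩
      have h3 : ¬ (a = 0 ∧ bp = 0) := h1
      simp [DZ, h1, h2]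
      omega
    · rcases le_total (min (s + M * a) (M - s + M * b) + i)
        (min (s + M * ap) (M - s + M * bp) + (M - i)) with h3 | h3
      · left
        exact mid_half M s i m s2 top a ap b bp hM hm hi hi' hs hs2m ht ht' h1 h2 h3
      · right
        rw [DZ_swap _ _ _ _ _ _ _ h]
        refine mid_half M s (M - i) m s2 top ap a bp b hM hm (by omega) (by omega) hs hs2m ht ht'
          h2 h1 ?_
        rw [sub_sub_cancel]
        exact h3

/-! ### Decoding -/

lemma red (M n n' v v' : ℤ) (hM : 0 < M) (h : M * n + v = M * n' + v') (h1 : v' - v < 2 * M)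
    (h2 : v - v' < 2 * M) : ∃ k : ℤ, (k = -1 ∨ k = 0 ∨ k = 1) ∧ n = n' + k := by
  refine ⟨n - n', ?_, by ring⟩
  have e : M * (n - n') = v' - v := by rw [mul_sub]; omega
  have k1 : n - n' < 2 := by
    by_contra h3
    have : M * 2 ≤ M * (n - n') := mul_le_mul_of_nonneg_left (by omega) hM.le
    omega
  have k2 : -2 < n - n' := by
    by_contra h3
    have : M * (n - n') ≤ M * (-2) := mul_le_mul_of_nonneg_left (by omega) hM.le
    omega
  omega

/-- Decoding in the range `4 ≤ op`, `2 * op + 8 ≤ M`. -/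
theorem decode (M s m s2 w op o1 o2 D E1 E2 : ℤ) (hop : 4 ≤ op) (hop' : 2 * op + 8 ≤ M)
    (h1 : op ≤ o1 + 1) (h1' : o1 ≤ op + 1) (h2 : op ≤ o2 + 1) (h2' : o2 ≤ op + 1)
    (hs : (s = 0 ∧ s2 = 0) ∨ s = 2 ∨ (2 * s = M - 3 ∨ 2 * s = M - 4) ∨
      (s = op + 2 ∧ 4 * op + 7 ≤ M) ∨ (s = op - 2 ∧ M + 7 ≤ 4 * op))
    (r1 : Rt M s o1 D m s2 w E1) (r2 : Rt M s o2 D m s2 w E2) : o1 = o2 ∧ E1 = E2 := by
  obtain ⟨n1, r1⟩ := r1
  obtain ⟨n2, r2⟩ := r2
  have hM : 0 < M := by omega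
  have hk : ∃ k : ℤ, (k = -1 ∨ k = 0 ∨ k = 1) ∧ n1 = n2 + k := by
    obtain ⟨v, hv⟩ : ∃ v, v = D - M * n1 := ⟨_, rfl⟩
    obtain ⟨v', hv'⟩ : ∃ v', v' = D - M * n2 := ⟨_, rfl⟩
    apply red M n1 n2 v v' hM <;> omega
  obtain ⟨k, hk, rfl⟩ := hk
  rcases hk with rfl | rfl | rfl
  · simp only [mul_add, mul_neg, mul_one] at r1
    generalize M * n2 = A at *
    generalize m * n2 = B at *
    omega
  · simp only [add_zero] at r1
    generalize M * n2 = A at *
    generalize m * n2 = B at *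
    omega
  · simp only [mul_add, mul_one] at r1
    generalize M * n2 = A at *
    generalize m * n2 = B at *
    omega

/-- Decoding near a vertex, probe at a vertex. -/
theorem decode0 (M m o1 o2 w1 w2 D E1 E2 : ℤ) (hM : 28 ≤ M) (h1 : 0 ≤ o1) (h1' : o1 ≤ 4)
    (h2 : 0 ≤ o2) (h2' : o2 ≤ 4) (hw1 : w1 = min o1 1) (hw2 : w2 = min o2 1)
    (r1 : Rt M 0 o1 D m 0 w1 E1) (r2 : Rt M 0 o2 D m 0 w2 E2) : o1 = o2 ∧ E1 = E2 := by
  obtain ⟨n1, r1⟩ := r1
  obtain ⟨n2, r2⟩ := r2
  have hM : 0 < M := by omega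
  have hk : ∃ k : ℤ, (k = -1 ∨ k = 0 ∨ k = 1) ∧ n1 = n2 + k := by
    obtain ⟨v, hv⟩ : ∃ v, v = D - M * n1 := ⟨_, rfl⟩
    obtain ⟨v', hv'⟩ : ∃ v', v' = D - M * n2 := ⟨_, rfl⟩
    apply red M n1 n2 v v' hM <;> omega
  obtain ⟨k, hk, rfl⟩ := hk
  rcases hk with rfl | rfl | rfl
  · simp only [mul_add, mul_neg, mul_one] at r1
    generalize M * n2 = A at *
    generalize m * n2 = B at *
    omega
  · simp only [add_zero] at r1
    generalize M * n2 = A at *
    generalize m * n2 = B at *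
    omega
  · simp only [mul_add, mul_one] at r1
    generalize M * n2 = A at *
    generalize m * n2 = B at *
    omega

/-- Decoding the depth from the distance to a vertex. -/
theorem decode_depth (M m o1 o2 w1 w2 D E1 E2 : ℤ) (hM : 0 < M) (h1 : 0 ≤ o1) (h1' : 2 * o1 ≤ M)
    (h2 : 0 ≤ o2) (h2' : 2 * o2 ≤ M)
    (r1 : Rt M 0 o1 D m 0 w1 E1) (r2 : Rt M 0 o2 D m 0 w2 E2) : o1 = o2 := by
  obtain ⟨n1, r1⟩ := r1
  obtain ⟨n2, r2⟩ := r2
  have hk : ∃ k : ℤ, (k = -1 ∨ k = 0 ∨ k = 1) ∧ n1 = n2 + k := by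
    obtain ⟨v, hv⟩ : ∃ v, v = D - M * n1 := ⟨_, rfl⟩
    obtain ⟨v', hv'⟩ : ∃ v', v' = D - M * n2 := ⟨_, rfl⟩
    apply red M n1 n2 v v' hM <;> omega
  obtain ⟨k, hk, rfl⟩ := hk
  rcases hk with rfl | rfl | rfl
  · simp only [mul_add, mul_neg, mul_one] at r1
    generalize M * n2 = A at *
    generalize m * n2 = B at *
    omega
  · simp only [add_zero] at r1
    generalize M * n2 = A at *
    generalize m * n2 = B at *
    omega
  · simp only [mul_add, mul_one] at r1
    generalize M * n2 = A at *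
    generalize m * n2 = B at *
    omega

/-- Decoding in the middle of an edge. -/
theorem decode_mid (M s m s2 top j1 j2 D E1 E2 : ℤ) (hM : 28 ≤ M) (h1 : M - 9 ≤ 2 * j1)
    (h1' : 2 * j1 ≤ M + 9) (h2 : M - 9 ≤ 2 * j2) (h2' : 2 * j2 ≤ M + 9)
    (hs : (s = 5 ∧ 1 ≤ s2) ∨ (s = 0 ∧ s2 = 0))
    (r1 : Md M s j1 D m s2 top E1) (r2 : Md M s j2 D m s2 top E2) : j1 = j2 ∧ E1 = E2 := by
  obtain ⟨n1, r1⟩ := r1
  obtain ⟨n2, r2⟩ := r2
  have hk : ∃ k : ℤ, (k = -1 ∨ k = 0 ∨ k = 1) ∧ n1 = n2 + k := by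
    obtain ⟨v, hv⟩ : ∃ v, v = D - M * n1 := ⟨_, rfl⟩
    obtain ⟨v', hv'⟩ : ∃ v', v' = D - M * n2 := ⟨_, rfl⟩
    apply red M n1 n2 v v' (by omega) <;> omega
  obtain ⟨k, hk, rfl⟩ := hk
  rcases hk with rfl | rfl | rfl
  · simp only [mul_add, mul_neg, mul_one] at r1
    generalize M * n2 = A at *
    generalize m * n2 = B at *
    omega
  · simp only [add_zero] at r1
    generalize M * n2 = A at *
    generalize m * n2 = B at *
    omega
  · simp only [mul_add, mul_one] at r1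
    generalize M * n2 = A at *
    generalize m * n2 = B at *
    omega

/-- Decoding near a vertex, first probe. -/
theorem decode1 (M n n' s s' r r' o o' : ℤ) (hM : 28 ≤ M) (hs : s = 1 ∨ s = -1)
    (hs' : s' = 1 ∨ s' = -1) (hr : r = 1 ∨ r = -1) (hr' : r' = 1 ∨ r' = -1)
    (ho : 0 ≤ o) (ho4 : o ≤ 4) (ho' : 0 ≤ o') (ho4' : o' ≤ 4)
    (h : M * n + s * 6 + r * o = M * n' + s' * 6 + r' * o') :
    n = n' ∧ s = s' ∧ o = o' ∧ (o ≠ 0 → r = r') := by
  have hk : ∃ k : ℤ, (k = -1 ∨ k = 0 ∨ k = 1) ∧ n = n' + k := by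
    apply red M n n' (s * 6 + r * o) (s' * 6 + r' * o') (by omega) (by omega)
    · rcases hs with rfl | rfl <;> rcases hs' with rfl | rfl <;> rcases hr with rfl | rfl <;>
        rcases hr' with rfl | rfl <;> omega
    · rcases hs with rfl | rfl <;> rcases hs' with rfl | rfl <;> rcases hr with rfl | rfl <;>
        rcases hr' with rfl | rfl <;> omega
  obtain ⟨k, hk, rfl⟩ := hk
  rw [mul_add] at h
  generalize M * n' = A at *
  rcases hk with rfl | rfl | rfl <;> rcases hs with rfl | rfl <;> rcases hs' with rfl | rfl <;>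
    rcases hr with rfl | rfl <;> rcases hr' with rfl | rfl <;> omega

/-- Decoding near a vertex, second probe. -/
theorem decode2 (M n n' r r' o o' : ℤ) (hM : 28 ≤ M) (hr : r = 1 ∨ r = -1)
    (hr' : r' = 1 ∨ r' = -1)
    (ho : 0 ≤ o) (ho4 : o ≤ 5) (ho' : 0 ≤ o') (ho4' : o' ≤ 5)
    (h : M * n + r * o = M * n' + r' * o') :
    n = n' ∧ o = o' ∧ (o ≠ 0 → r = r') := by
  have hk : ∃ k : ℤ, (k = -1 ∨ k = 0 ∨ k = 1) ∧ n = n' + k := by
    apply red M n n' (r * o) (r' * o') (by omega) (by omega)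
    · rcases hr with rfl | rfl <;> rcases hr' with rfl | rfl <;> omega
    · rcases hr with rfl | rfl <;> rcases hr' with rfl | rfl <;> omega
  obtain ⟨k, hk, rfl⟩ := hk
  rw [mul_add] at h
  generalize M * n' = A at *
  rcases hk with rfl | rfl | rfl <;> rcases hr with rfl | rfl <;> rcases hr' with rfl | rfl <;>
    omega

/-! ### The virtual depth -/

/-- The depth of the virtual robber as a function of the (previous) depth of the real one. -/
def fd (M m o : ℕ) : ℕ :=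
  max (min (o - 3) (max 1 ((m + 2) / 4))) (min (m / 2) (o - (M - m + 11) / 4))

lemma fd_pos {M m o : ℕ} (ho : 4 ≤ o) : 1 ≤ fd M m o := by
  unfold fd; omega

lemma fd_le {M m o : ℕ} (hm : 2 ≤ m) : 2 * fd M m o ≤ m := by
  unfold fd; omega

lemma fd_succ (M m o : ℕ) : fd M m (o + 1) ≤ fd M m o + 1 ∧ fd M m o ≤ fd M m (o + 1) := by
  unfold fd
  constructor <;> omega

lemma fd_low {M m o : ℕ} (hM : m + 26 ≤ M) (ho : 4 ≤ o)
    (h : 4 * fd M m o + 2 < m) : 4 * o + 7 ≤ M := by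
  unfold fd at h; omega

lemma fd_high {M m o : ℕ} (hm : 2 ≤ m) (hM : m + 26 ≤ M) (ho : 4 ≤ o)
    (h : m + 2 < 4 * fd M m o) : M + 7 ≤ 4 * o := by
  unfold fd at h; omega

lemma fd_four {M m : ℕ} (hM : m + 26 ≤ M) : fd M m 4 = 1 := by
  unfold fd; omega

lemma fd_five {M m : ℕ} (hM : m + 26 ≤ M) : fd M m 5 ≤ 2 := by
  unfold fd; omega

lemma fd_top {M m o : ℕ} (hm : 2 ≤ m) (hM : m + 26 ≤ M) (ho : M ≤ 2 * o + 9) :
    fd M m o = m / 2 := by
  unfold fd; omega

/-- The choice of the real probe. -/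
lemma choice (M m s2 o : ℕ) (hm : 2 ≤ m) (hM : m + 26 ≤ M) (ho : 4 ≤ o) (hoM : 2 * o + 8 ≤ M)
    (hs2 : 2 * s2 ≤ m) : ∃ s : ℕ, 2 * s ≤ M ∧
      ((s = 0 ∧ s2 = 0) ∨ s = 2 ∨ (2 * s + 3 = M ∨ 2 * s + 4 = M) ∨
        (s = o + 2 ∧ 4 * o + 7 ≤ M) ∨ (s + 2 = o ∧ M + 7 ≤ 4 * o)) ∧
      ∀ o' : ℕ, o ≤ o' + 1 → o' ≤ o + 1 →
        ((s ≤ o' ∧ s2 ≤ fd M m o) ∨ (o' ≤ s ∧ fd M m o ≤ s2)) ∧
        ((2 * (s + o') ≤ M ∧ 2 * (s2 + fd M m o) ≤ m) ∨
          (M ≤ 2 * (s + o') ∧ m ≤ 2 * (s2 + fd M m o))) := by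
  have f1 := fd_pos (M := M) (m := m) ho
  have f2 := fd_le (M := M) (o := o) hm
  have f3 := fd_low (m := m) hM ho
  have f4 := fd_high hm hM ho
  generalize fd M m o = w at *
  rcases Nat.eq_zero_or_pos s2 with rfl | hpos
  · refine ⟨0, by omega, by omega, fun o' h1 h2 => ⟨by omega, by omega⟩⟩
  · by_cases c1 : s2 ≤ w ∧ 2 * (s2 + w) ≤ m
    · exact ⟨2, by omega, by omega, fun o' h1 h2 => ⟨by omega, by omega⟩⟩
    · by_cases c2 : w ≤ s2 ∧ m ≤ 2 * (s2 + w)
      · exact ⟨(M - 3) / 2, by omega, by omega, fun o' h1 h2 => ⟨by omega, by omega⟩⟩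
      · by_cases c3 : w ≤ s2
        · exact ⟨o + 2, by omega, by omega, fun o' h1 h2 => ⟨by omega, by omega⟩⟩
        · exact ⟨o - 2, by omega, by omega, fun o' h1 h2 => ⟨by omega, by omega⟩⟩

end H34Rob
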