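import Mathlib

/-! Definitions for `MP_e58ac0_co`: the uniform subdivision `G^{1/m}` and the robber locating
game. -/

set_option autoImplicit false

namespace H34Rob

open SimpleGraph

universe u

open Classical in
/-- The point at distance `i` from `x` on the segment `xy` of length `m`, in barycentric
coordinates: `m - i` units of mass at `x` and `i` units at `y`. -/
noncomputable def point {V : Type u} (m : ℕ) (x y : V) (i : ℕ) : V → ℕ :=
  Pi.single x (m - i) + Pi.single y i

/-- The vertices of `G^{1/m}`: all points at integral distance from the ends of an edge of `G`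
(each edge has length `m`); `x = y` gives the vertex `x` of `G` itself. -/
def SubVert {V : Type u} (G : SimpleGraph V) (m : ℕ) : Type u :=
  {f : V → ℕ // ∃ x y i, (x = y ∨ G.Adj x y) ∧ i ≤ m ∧ f = point m x y i}

lemma point_symm {V : Type u} (m : ℕ) (x y : V) (i : ℕ) (hi : i ≤ m) :
    point m x y i = point m y x (m - i) := by
  unfold point
  rw [Nat.sub_sub_self hi, add_comm]

/-- The graph `G^{1/m}`, obtained from `G` by replacing every edge by a path of length `m`:
consecutive points of an edge are adjacent. -/
def subdiv {V : Type u} (G : SimpleGraph V) (m : ℕ) : SimpleGraph (SubVert G m) where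
  Adj f g := ∃ x y i, G.Adj x y ∧ i < m ∧ f.1 = point m x y i ∧ g.1 = point m x y (i + 1)
  symm := ⟨by
    rintro f g ⟨x, y, i, hxy, hi, hf, hg⟩
    refine ⟨y, x, m - (i + 1), hxy.symm, by omega, ?_, ?_⟩
    · rw [hg, point_symm m x y (i + 1) hi]
    · rw [hf, point_symm m x y i hi.le]
      congr 1
      omega⟩
  loopless := ⟨by
    rintro f ⟨x, y, i, hxy, hi, hf, hg⟩
    have h := congrFun (hf.symm.trans hg) y
    have hne := hxy.ne'
    simp [point, hne] at h⟩

/-- The set of possible positions of the robber after his move and the answer `d` to the probe at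
`v`, if before it was `S`: he stays or moves to a neighbour, and then his distance to `v` is
`d`. -/
def nextSet {W : Type u} (H : SimpleGraph W) (S : Set W) (v : W) (d : ℕ) : Set W :=
  {r | (r ∈ S ∨ ∃ r' ∈ S, H.Adj r' r) ∧ H.dist v r = d}

/-- The cop, knowing that the robber is in `S`, can win within `n` rounds: his position is already
determined, or there is a probe all answers to which leave her a win within `n - 1` rounds. -/
def CopWinsIn {W : Type u} (H : SimpleGraph W) : ℕ → Set W → Prop
  | 0, S => S.Subsingleton
  | n + 1, S => S.Subsingleton ∨ ∃ v, ∀ d, CopWinsIn H n (nextSet H S v d)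

/-- `H` is locatable: the cop wins within a bounded number of rounds. -/
def Locatable {W : Type u} (H : SimpleGraph W) : Prop := ∃ n, CopWinsIn H n Set.univ

end H34Rob
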