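import Pool.Agent.H34.Rob.Sub

/-! The simulation of the game on `G^{1/m}` by the game on `G^{1/M}`. -/

set_option autoImplicit false

namespace H34Rob

open SimpleGraph

universe u

/-! ### The game -/

section Game

variable {W : Type u} {H : SimpleGraph W}

lemma win_of_subsingleton {n : ℕ} {S : Set W} (h : S.Subsingleton) : CopWinsIn H n S := by
  cases n with
  | zero => exact h
  | succ n => exact Or.inl h

lemma win_succ : ∀ {n : ℕ} {S : Set W}, CopWinsIn H n S → CopWinsIn H (n + 1) S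
  | 0, _, h => Or.inl h
  | _ + 1, _, Or.inl h => Or.inl h
  | _ + 1, _, Or.inr ⟨v, h⟩ => Or.inr ⟨v, fun d => win_succ (h d)⟩

lemma win_mono {n k : ℕ} (hnk : n ≤ k) {S : Set W} (h : CopWinsIn H n S) : CopWinsIn H k S := by
  induction hnk with
  | refl => exact h
  | step _ ih => exact win_succ ih

end Game

variable {V : Type u} {G : SimpleGraph V} {M m : ℕ}

/-- All candidates in `S` have depth `o`, and the corresponding virtual positions at depth `w` are
in `T`. -/
def Inv (G : SimpleGraph V) (M m o w : ℕ) (S : Set (SubVert G M)) (T : Set (SubVert G m)) :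
    Prop :=
  ∀ r ∈ S, ∃ q p, G.Adj q p ∧ r = P G M q p o ∧ P G m q p w ∈ T

/-- The admissible pairs of a real and a virtual depth. -/
def Valid (M m o w : ℕ) : Prop :=
  (o ≤ 3 ∧ w = min o 1) ∨
  (4 ≤ o ∧ 2 * o + 8 ≤ M ∧ 1 ≤ w ∧ w < m ∧ w ≤ fd M m o + 1 ∧ fd M m o ≤ w + 1) ∨
  (w = m / 2 ∧ M ≤ 2 * o + 9 ∧ 2 * o ≤ M + 9)

lemma move_int {q p : V} {o : ℕ} (h : G.Adj q p) (ho : 0 < o) (hoM : o < M) {r : SubVert G M}
    (hr : r = P G M q p o ∨ (subdiv G M).Adj (P G M q p o) r) :
    ∃ o', o ≤ o' + 1 ∧ o' ≤ o + 1 ∧ r = P G M q p o' := by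
  rcases hr with rfl | hr
  · exact ⟨o, by omega, by omega, rfl⟩
  · rcases adj_int h ho hoM hr with rfl | rfl
    · exact ⟨o - 1, by omega, by omega, rfl⟩
    · exact ⟨o + 1, by omega, by omega, rfl⟩

lemma move {S : Set (SubVert G M)} {T : Set (SubVert G m)} {o w : ℕ} (hinv : Inv G M m o w S T)
    (h0 : o = 0 → w = 0) (hoM : o < M) {r : SubVert G M}
    (hr : r ∈ S ∨ ∃ r' ∈ S, (subdiv G M).Adj r' r) :
    ∃ q p o', G.Adj q p ∧ r = P G M q p o' ∧ o ≤ o' + 1 ∧ o' ≤ o + 1 ∧ P G m q p w ∈ T := by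
  have hr' : ∃ r' ∈ S, r = r' ∨ (subdiv G M).Adj r' r := by
    rcases hr with hr | ⟨r', hr', ha⟩
    · exact ⟨r, hr, Or.inl rfl⟩
    · exact ⟨r', hr', Or.inr ha⟩
  obtain ⟨r', hr', ha⟩ := hr'
  obtain ⟨q, p, hqp, rfl, hT⟩ := hinv r' hr'
  rcases Nat.eq_zero_or_pos o with rfl | ho
  · obtain rfl := h0 rfl
    rcases ha with rfl | ha
    · exact ⟨q, p, 0, hqp, rfl, by omega, by omega, hT⟩
    · obtain ⟨p', hp', rfl⟩ := adj_hub (by omega) hqp ha
      refine ⟨q, p', 1, hp', rfl, by omega, by omega, ?_⟩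
      rwa [P_zero hp' hqp]
  · obtain ⟨o', h1, h2, rfl⟩ := move_int hqp ho hoM ha
    exact ⟨q, p, o', hqp, rfl, h1, h2, hT⟩

lemma virt {T : Set (SubVert G m)} {q p : V} {w w' : ℕ} (h : G.Adj q p) (hw : w ≤ m)
    (hw' : w' ≤ m) (h1 : w ≤ w' + 1) (h2 : w' ≤ w + 1) (hT : P G m q p w ∈ T) :
    P G m q p w' ∈ T ∨ ∃ r' ∈ T, (subdiv G m).Adj r' (P G m q p w') := by
  obtain h3 | h3 | h3 : w' = w ∨ w' = w + 1 ∨ w = w' + 1 := by omega
  · left; rwa [h3]
  · right
    exact ⟨_, hT, by rw [h3]; exact adj_succ h (by omega)⟩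
  · right
    refine ⟨_, hT, ?_⟩
    rw [h3]
    exact (adj_succ h (by omega)).symm

/-- Capture of the virtual robber. -/
lemma capture (hG : G.Connected) [Nontrivial V] (hm : 2 ≤ m) (hM : m + 26 ≤ M)
    {S : Set (SubVert G M)} {T : Set (SubVert G m)} {o w : ℕ} (hT : T.Subsingleton)
    (hv : Valid M m o w) (hinv : Inv G M m o w S T) : CopWinsIn (subdiv G M) 1 S := by
  rcases S.eq_empty_or_nonempty with rfl | ⟨r0, hr0⟩
  · exact win_of_subsingleton Set.subsingleton_empty
  obtain ⟨q0, p0, h0, rfl, ht0⟩ := hinv r0 hr0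
  rcases Nat.eq_zero_or_pos o with rfl | ho
  · have hw : w = 0 := by
      unfold Valid at hv
      omega
    subst hw
    apply win_of_subsingleton
    intro a ha b hb
    obtain ⟨q, p, h, rfl, ht⟩ := hinv a ha
    obtain ⟨q', p', h', rfl, ht'⟩ := hinv b hb
    have e := hT ht ht'
    rcases P_inj_hub (by omega) h h' (by omega) e with ⟨rfl, -⟩ | ⟨-, h2⟩
    · exact P_zero h h'
    · omega
  · have hw : 0 < w ∧ w < m ∧ o < M := by
      unfold Valid at hv
      omega
    right
    refine ⟨P G M q0 p0 0, fun d => ?_⟩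
    show (nextSet _ _ _ _).Subsingleton
    have key : ∀ r ∈ nextSet (subdiv G M) S (P G M q0 p0 0) d, r = P G M q0 p0 d := by
      rintro r ⟨hr, hd⟩
      have h3 : ∃ j, j ≤ M ∧ r = P G M q0 p0 j := by
        obtain ⟨q, p, o', hqp, rfl, h1, h2, ht⟩ := move hinv (by omega) (by omega) hr
        have e := hT ht0 ht
        rcases P_inj_int h0 hqp hw.1 hw.2.1 (by omega) e with ⟨rfl, rfl, -⟩ | ⟨rfl, rfl, -⟩
        · exact ⟨o', by omega, rfl⟩
        · exact ⟨M - o', by omega, P_symm hqp (by omega)⟩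
      obtain ⟨j, hj, rfl⟩ := h3
      have hf := dist_formula hG (by omega : 0 < M) h0 h0 (Nat.zero_le _) hj
      rw [hd] at hf
      have hjd : d = j := by
        simp [DZ] at hf
        omega
      rw [hjd]
    intro a ha b hb
    rw [key a ha, key b hb]

/-- A round of the virtual game is simulated by one round, the depth being in the middle range. -/
lemma mid_round (hG : G.Connected) [Nontrivial V] (hm : 2 ≤ m) (hM : m + 26 ≤ M)
    {S : Set (SubVert G M)} {T : Set (SubVert G m)} {o w : ℕ}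
    (ho : 4 ≤ o) (hoM : 2 * o + 8 ≤ M) (hw : 1 ≤ w) (hwm : w < m) (h1 : w ≤ fd M m o + 1)
    (h2 : fd M m o ≤ w + 1) (hinv : Inv G M m o w S T) {x y : V} {s2 : ℕ} (hxy : G.Adj x y)
    (hs2 : 2 * s2 ≤ m) : ∃ v, ∀ D, (nextSet (subdiv G M) S v D).Subsingleton ∨
      ∃ o' w' d, Valid M m o' w' ∧ Inv G M m o' w' (nextSet (subdiv G M) S v D)
        (nextSet (subdiv G m) T (P G m x y s2) d) := by
  obtain ⟨s, hs, hcond, hside⟩ := choice M m s2 o hm hM ho hoM hs2
  have fpos := fd_pos (M := M) (m := m) ho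
  have fle := fd_le (M := M) (o := o) hm
  refine ⟨P G M x y s, fun D => ?_⟩
  rcases (nextSet (subdiv G M) S (P G M x y s) D).eq_empty_or_nonempty with h | ⟨r0, hr0, hD0⟩
  · left; rw [h]; exact Set.subsingleton_empty
  right
  have key : ∀ r, (r ∈ S ∨ ∃ r' ∈ S, (subdiv G M).Adj r' r) →
      (subdiv G M).dist (P G M x y s) r = D → ∃ q p o', G.Adj q p ∧ r = P G M q p o' ∧
        o ≤ o' + 1 ∧ o' ≤ o + 1 ∧ P G m q p w ∈ T ∧
        Rt M s o' D m s2 (fd M m o : ℕ)
          ((subdiv G m).dist (P G m x y s2) (P G m q p (fd M m o)) : ℕ) := by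
    intro r hr hD
    obtain ⟨q, p, o', hqp, rfl, g1, g2, ht⟩ := move hinv (by omega) (by omega) hr
    refine ⟨q, p, o', hqp, rfl, g1, g2, ht, ?_⟩
    have e1 := dist_formula hG (by omega : 0 < M) hxy hqp (by omega : s ≤ M) (by omega : o' ≤ M)
    have e2 := dist_formula hG (by omega : 0 < m) hxy hqp (by omega : s2 ≤ m)
      (by omega : fd M m o ≤ m)
    rw [hD] at e1
    rw [e1, e2]
    obtain ⟨sd1, sd2⟩ := hside o' g1 g2
    exact common _ _ _ _ _ _ _ _ _ _ (quad hG hxy hqp) (by omega) (by omega) (by omega)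
      (by omega) (by omega) (by omega) (by omega) (by omega) (by omega) (by omega)
  obtain ⟨q0, p0, o0, hqp0, rfl, g1, g2, ht0, R0⟩ := key r0 hr0 hD0
  refine ⟨o0, fd M m o, (subdiv G m).dist (P G m x y s2) (P G m q0 p0 (fd M m o)), ?_, ?_⟩
  · -- validity
    have l0 := fd_succ M m o
    have l1 := fd_succ M m (o - 1)
    rw [Nat.sub_add_cancel (by omega : 1 ≤ o)] at l1
    rcases le_or_gt o0 3 with c1 | c1
    · left
      have : o = 4 := by omega
      subst this
      rw [fd_four hM]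
      omega
    · rcases le_or_gt (2 * o0 + 8) M with c2 | c2
      · right; left
        have hh : o0 = o ∨ o0 = o + 1 ∨ o0 = o - 1 := by omega
        rcases hh with rfl | rfl | rfl <;> omega
      · right; right
        rw [fd_top hm hM (by omega)]
        omega
  · rintro r ⟨hr, hD⟩
    obtain ⟨q, p, o', hqp, rfl, g1', g2', ht, R⟩ := key r hr hD
    obtain ⟨e1, e2⟩ := decode _ _ _ _ _ (o : ℤ) _ _ _ _ _ (by omega) (by omega) (by omega)
      (by omega) (by omega) (by omega) (by omega) R0 R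
    have e1' : o0 = o' := by omega
    subst e1'
    refine ⟨q, p, hqp, rfl, virt hqp (by omega) (by omega) (by omega) (by omega) ht, ?_⟩
    omega

/-- A round of the virtual game, the robber being near the middle of an edge. -/
lemma middle_round (hG : G.Connected) [Nontrivial V] (hm : 2 ≤ m) (hM : m + 26 ≤ M)
    {S : Set (SubVert G M)} {T : Set (SubVert G m)} {o : ℕ}
    (ho : M ≤ 2 * o + 7) (hoM : 2 * o ≤ M + 7) (hinv : Inv G M m o (m / 2) S T)
    {x y : V} {s2 : ℕ} (hxy : G.Adj x y)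
    (hs2 : 2 * s2 ≤ m) : ∃ v, ∀ D, (nextSet (subdiv G M) S v D).Subsingleton ∨
      ∃ o' w' d, Valid M m o' w' ∧ Inv G M m o' w' (nextSet (subdiv G M) S v D)
        (nextSet (subdiv G m) T (P G m x y s2) d) := by
  obtain ⟨s, hs⟩ : ∃ s : ℕ, (s = 5 ∧ 1 ≤ s2) ∨ (s = 0 ∧ s2 = 0) := by
    rcases Nat.eq_zero_or_pos s2 with h | h
    · exact ⟨0, Or.inr ⟨rfl, h⟩⟩
    · exact ⟨5, Or.inl ⟨rfl, h⟩⟩
  refine ⟨P G M x y s, fun D => ?_⟩
  rcases (nextSet (subdiv G M) S (P G M x y s) D).eq_empty_or_nonempty with h | ⟨r0, hr0, hD0⟩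
  · left; rw [h]; exact Set.subsingleton_empty
  right
  have key : ∀ r, (r ∈ S ∨ ∃ r' ∈ S, (subdiv G M).Adj r' r) →
      (subdiv G M).dist (P G M x y s) r = D → ∃ q p j, G.Adj q p ∧ r = P G M q p j ∧
        M ≤ 2 * j + 9 ∧ 2 * j ≤ M + 9 ∧
        (P G m q p (m / 2) ∈ T ∨ ∃ r' ∈ T, (subdiv G m).Adj r' (P G m q p (m / 2))) ∧
        Md M s j D m s2 (m / 2 : ℕ)
          ((subdiv G m).dist (P G m x y s2) (P G m q p (m / 2)) : ℕ) := by
    intro r hr hD
    obtain ⟨q, p, o', hqp, rfl, g1, g2, ht⟩ := move hinv (by omega) (by omega) hr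
    have e1 := dist_formula hG (by omega : 0 < M) hxy hqp (by omega : s ≤ M) (by omega : o' ≤ M)
    have e2 := dist_formula hG (by omega : 0 < m) hxy hqp (by omega : s2 ≤ m)
      (by omega : m / 2 ≤ m)
    have e3 := dist_formula hG (by omega : 0 < m) hxy hqp.symm (by omega : s2 ≤ m)
      (by omega : m / 2 ≤ m)
    rw [hD] at e1
    rcases mid M s o' m s2 (m / 2 : ℕ) _ _ _ _ (quad hG hxy hqp) (by omega) (by omega)
      (by omega) (by omega) (by omega) (by omega) (by omega) (by omega) with h | h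
    · refine ⟨q, p, o', hqp, rfl, by omega, by omega, Or.inl ht, ?_⟩
      rw [e1, e2]
      exact h
    · refine ⟨p, q, M - o', hqp.symm, P_symm hqp (by omega), by omega, by omega, ?_, ?_⟩
      · rw [P_symm hqp.symm (by omega : m / 2 ≤ m)]
        exact virt hqp (by omega) (by omega) (by omega) (by omega) ht
      · rw [e1, e3]
        have e4 : ((M - o' : ℕ) : ℤ) = M - o' := by omega
        rw [e4]
        exact h
  obtain ⟨q0, p0, o0, hqp0, rfl, g1, g2, ht0, R0⟩ := key r0 hr0 hD0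
  refine ⟨o0, m / 2, (subdiv G m).dist (P G m x y s2) (P G m q0 p0 (m / 2)), ?_, ?_⟩
  · right; right
    omega
  · rintro r ⟨hr, hD⟩
    obtain ⟨q, p, o', hqp, rfl, g1', g2', ht, R⟩ := key r hr hD
    obtain ⟨e1, e2⟩ := decode_mid _ _ _ _ _ _ _ _ _ _ (by omega) (by omega) (by omega)
      (by omega) (by omega) (by omega) R0 R
    have e1' : o0 = o' := by omega
    subst e1'
    refine ⟨q, p, hqp, rfl, ht, ?_⟩
    omega

/-- The new admissible pair near a vertex. -/
lemma valid_near (hm : 2 ≤ m) (hM : m + 26 ≤ M) {o : ℕ} (ho : o ≤ 5) :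
    Valid M m o (min o 1) := by
  have f4 := fd_four hM
  have f5 := fd_five hM
  have f5' := fd_pos (M := M) (m := m) (o := 5) (by omega)
  unfold Valid
  rcases le_or_gt o 3 with h | h
  · left; omega
  · right; left
    obtain rfl | rfl : o = 4 ∨ o = 5 := by omega
    · omega
    · omega

/-- A round near a vertex with a virtual probe at a vertex. -/
lemma near_round0 (hG : G.Connected) [Nontrivial V] (hm : 2 ≤ m) (hM : m + 26 ≤ M)
    {S : Set (SubVert G M)} {T : Set (SubVert G m)} {o : ℕ}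
    (ho : o ≤ 3) (hinv : Inv G M m o (min o 1) S T)
    {x y : V} (hxy : G.Adj x y) : ∃ v, ∀ D, (nextSet (subdiv G M) S v D).Subsingleton ∨
      ∃ o' w' d, Valid M m o' w' ∧ Inv G M m o' w' (nextSet (subdiv G M) S v D)
        (nextSet (subdiv G m) T (P G m x y 0) d) := by
  refine ⟨P G M x y 0, fun D => ?_⟩
  rcases (nextSet (subdiv G M) S (P G M x y 0) D).eq_empty_or_nonempty with h | ⟨r0, hr0, hD0⟩
  · left; rw [h]; exact Set.subsingleton_empty
  right
  have key : ∀ r, (r ∈ S ∨ ∃ r' ∈ S, (subdiv G M).Adj r' r) →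
      (subdiv G M).dist (P G M x y 0) r = D → ∃ q p o', G.Adj q p ∧ r = P G M q p o' ∧
        o' ≤ o + 1 ∧ P G m q p (min o 1) ∈ T ∧
        Rt M 0 o' D m 0 (min o' 1 : ℕ)
          ((subdiv G m).dist (P G m x y 0) (P G m q p (min o' 1)) : ℕ) := by
    intro r hr hD
    obtain ⟨q, p, o', hqp, rfl, g1, g2, ht⟩ := move hinv (by omega) (by omega) hr
    refine ⟨q, p, o', hqp, rfl, g2, ht, ?_⟩
    have e1 := dist_formula hG (by omega : 0 < M) hxy hqp (by omega : 0 ≤ M) (by omega : o' ≤ M)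
    have e2 := dist_formula hG (by omega : 0 < m) hxy hqp (by omega : 0 ≤ m)
      (by omega : min o' 1 ≤ m)
    rw [hD] at e1
    rw [e1, e2]
    rw [Nat.cast_zero]
    exact common _ _ _ _ _ _ _ _ _ _ (quad hG hxy hqp) (by omega) (by omega) (by omega)
      (by omega) (by omega) (by omega) (by omega) (by omega) (by omega) (by omega)
  obtain ⟨q0, p0, o0, hqp0, rfl, g2, ht0, R0⟩ := key r0 hr0 hD0
  refine ⟨o0, min o0 1, (subdiv G m).dist (P G m x y 0) (P G m q0 p0 (min o0 1)),
    valid_near hm hM (by omega), ?_⟩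
  rintro r ⟨hr, hD⟩
  obtain ⟨q, p, o', hqp, rfl, g2', ht, R⟩ := key r hr hD
  obtain ⟨e1, e2⟩ := decode0 _ _ _ _ _ _ _ _ _ (by omega) (by omega) (by omega)
    (by omega) (by omega) (by omega) (by omega) R0 R
  have e1' : o0 = o' := by omega
  subst e1'
  refine ⟨q, p, hqp, rfl, virt hqp (by omega) (by omega) (by omega) (by omega) ht, ?_⟩
  omega

/-- A round near a vertex with a virtual probe inside an edge: two real probes. -/
lemma near_round1 (hG : G.Connected) [Nontrivial V] (hm : 2 ≤ m) (hM : m + 26 ≤ M)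
    {S : Set (SubVert G M)} {T : Set (SubVert G m)} {o : ℕ}
    (ho : o ≤ 3) (hinv : Inv G M m o (min o 1) S T)
    {x y : V} {s2 : ℕ} (hxy : G.Adj x y) (hs2 : 2 * s2 ≤ m) (hs2' : 1 ≤ s2) :
    ∃ v, ∀ D, (nextSet (subdiv G M) S v D).Subsingleton ∨
      (∃ o' w' d, Valid M m o' w' ∧ Inv G M m o' w' (nextSet (subdiv G M) S v D)
        (nextSet (subdiv G m) T (P G m x y s2) d)) ∨
      ∃ v', ∀ D', (nextSet (subdiv G M) (nextSet (subdiv G M) S v D) v' D').Subsingleton ∨
        (∃ o' w' d, Valid M m o' w' ∧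
          Inv G M m o' w' (nextSet (subdiv G M) (nextSet (subdiv G M) S v D) v' D')
            (nextSet (subdiv G m) T (P G m x y s2) d)) := by
  refine ⟨P G M x y 6, fun D => ?_⟩
  rcases (nextSet (subdiv G M) S (P G M x y 6) D).eq_empty_or_nonempty with h | ⟨r0, hr0, hD0⟩
  · left; rw [h]; exact Set.subsingleton_empty
  right
  -- the possible positions after the first probe
  have key : ∀ r, (r ∈ S ∨ ∃ r' ∈ S, (subdiv G M).Adj r' r) →
      (subdiv G M).dist (P G M x y 6) r = D → ∃ q p o', G.Adj q p ∧ r = P G M q p o' ∧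
        o' ≤ o + 1 ∧ P G m q p (min o 1) ∈ T ∧
        (D : ℤ) = DZ M 6 o' (G.dist x q) (G.dist x p) (G.dist y q) (G.dist y p) := by
    intro r hr hD
    obtain ⟨q, p, o', hqp, rfl, g1, g2, ht⟩ := move hinv (by omega) (by omega) hr
    refine ⟨q, p, o', hqp, rfl, g2, ht, ?_⟩
    have e1 := dist_formula hG (by omega : 0 < M) hxy hqp (by omega : 6 ≤ M) (by omega : o' ≤ M)
    rw [hD] at e1
    exact e1
  obtain ⟨q0, p0, o1, hqp0, rfl, g2, ht0, E0⟩ := key r0 hr0 hD0
  -- all positions have the same depth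
  have key1 : ∀ r ∈ nextSet (subdiv G M) S (P G M x y 6) D, ∃ q p, G.Adj q p ∧
      r = P G M q p o1 ∧ P G m q p (min o 1) ∈ T ∧
      (D : ℤ) = DZ M 6 o1 (G.dist x q) (G.dist x p) (G.dist y q) (G.dist y p) := by
    rintro r ⟨hr, hD⟩
    obtain ⟨q, p, o', hqp, rfl, g2', ht, E⟩ := key r hr hD
    obtain ⟨n, n2, a, b, c, ha, hb, hc, k1, -⟩ := near_gen M m s2 o1 0 _ _ _ _
      (quad hG hxy hqp0) (by omega) (by omega) (by omega) (by omega) (by omega) (by omega)
      (by omega) (by omega)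
    obtain ⟨n', n2', a', b', c', ha', hb', hc', k1', -⟩ := near_gen M m s2 o' 0 _ _ _ _
      (quad hG hxy hqp) (by omega) (by omega) (by omega) (by omega) (by omega) (by omega)
      (by omega) (by omega)
    have e := decode1 M n n' a a' b b' o1 o' (by omega) ha ha' hb hb' (by omega) (by omega)
      (by omega) (by omega) (by rw [← k1, ← k1', ← E0, ← E])
    have e1 : o1 = o' := by omega
    subst e1
    exact ⟨q, p, hqp, rfl, ht, E⟩
  rcases Nat.eq_zero_or_pos o1 with hz | hpos
  · -- the robber is at a vertex of the base graph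
    left
    refine ⟨0, 0, (subdiv G m).dist (P G m x y s2) (P G m q0 p0 0),
      valid_near hm hM (by omega), ?_⟩
    rintro r hr
    obtain ⟨q, p, hqp, rfl, ht, E⟩ := key1 r hr
    subst hz
    refine ⟨q, p, hqp, rfl, virt hqp (by omega) (by omega) (by omega) (by omega) ht, ?_⟩
    obtain ⟨n, n2, a, b, c, ha, hb, hc, k1, k2, k3, -⟩ := near_gen M m s2 0 0 _ _ _ _
      (quad hG hxy hqp0) (by omega) (by omega) (by omega) (by omega) (by omega) (by omega)
      (by omega) (by omega)
    obtain ⟨n', n2', a', b', c', ha', hb', hc', k1', k2', k3', -⟩ := near_gen M m s2 0 0 _ _ _ _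
      (quad hG hxy hqp) (by omega) (by omega) (by omega) (by omega) (by omega) (by omega)
      (by omega) (by omega)
    rw [Nat.cast_zero] at E E0
    obtain ⟨rfl, rfl, -⟩ := decode1 M n n' a a' b b' 0 0 (by omega) ha ha' hb hb' (by omega)
      (by omega) (by omega) (by omega) (by rw [← k1, ← k1', ← E0, ← E])
    have e1 := dist_formula hG (by omega : 0 < m) hxy hqp0 (by omega : s2 ≤ m)
      (by omega : 0 ≤ m)
    have e2 := dist_formula hG (by omega : 0 < m) hxy hqp (by omega : s2 ≤ m)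
      (by omega : 0 ≤ m)
    rw [Nat.cast_zero] at e1 e2
    rw [k3] at e1
    rw [k3'] at e2
    omega
  · right
    refine ⟨P G M y x 0, fun D' => ?_⟩
    rcases (nextSet (subdiv G M) (nextSet (subdiv G M) S (P G M x y 6) D)
      (P G M y x 0) D').eq_empty_or_nonempty with h | ⟨r0', hr0', hD0'⟩
    · left; rw [h]; exact Set.subsingleton_empty
    right
    -- the possible positions after the second probe
    have key2 : ∀ r, (r ∈ nextSet (subdiv G M) S (P G M x y 6) D ∨
        ∃ r' ∈ nextSet (subdiv G M) S (P G M x y 6) D, (subdiv G M).Adj r' r) →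
        (subdiv G M).dist (P G M y x 0) r = D' → ∃ q p o', G.Adj q p ∧ r = P G M q p o' ∧
        o' ≤ o1 + 1 ∧ P G m q p (min o 1) ∈ T ∧
        (D : ℤ) = DZ M 6 o1 (G.dist x q) (G.dist x p) (G.dist y q) (G.dist y p) ∧
        (D' : ℤ) = DZ M 0 o' (G.dist y q) (G.dist y p) (G.dist x q) (G.dist x p) := by
      intro r hr hD
      have hr' : ∃ r' ∈ nextSet (subdiv G M) S (P G M x y 6) D,
          r = r' ∨ (subdiv G M).Adj r' r := by
        rcases hr with hr | ⟨r', hr', ha⟩
        · exact ⟨r, hr, Or.inl rfl⟩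
        · exact ⟨r', hr', Or.inr ha⟩
      obtain ⟨r', hr', ha⟩ := hr'
      obtain ⟨q, p, hqp, rfl, ht, E⟩ := key1 r' hr'
      obtain ⟨o', h1, h2, rfl⟩ := move_int hqp hpos (by omega) ha
      refine ⟨q, p, o', hqp, rfl, h2, ht, E, ?_⟩
      have e1 := dist_formula hG (by omega : 0 < M) hxy.symm hqp (by omega : 0 ≤ M)
        (by omega : o' ≤ M)
      rw [hD] at e1
      exact e1
    obtain ⟨q1, p1, o2, hqp1, rfl, g3, ht1, E1, E1'⟩ := key2 r0' hr0' hD0'
    refine ⟨o2, min o2 1, (subdiv G m).dist (P G m x y s2) (P G m q1 p1 (min o2 1)),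
      valid_near hm hM (by omega), ?_⟩
    rintro r ⟨hr, hD⟩
    obtain ⟨q, p, o', hqp, rfl, g3', ht, E, E'⟩ := key2 r hr hD
    obtain ⟨n, n2, a, b, c, ha, hb, hc, k1, k2, k3, k4⟩ := near_gen M m s2 o1 o2 _ _ _ _
      (quad hG hxy hqp1) (by omega) (by omega) (by omega) (by omega) (by omega) (by omega)
      (by omega) (by omega)
    obtain ⟨n', n2', a', b', c', ha', hb', hc', k1', k2', k3', k4'⟩ :=
      near_gen M m s2 o1 o' _ _ _ _
      (quad hG hxy hqp) (by omega) (by omega) (by omega) (by omega) (by omega) (by omega)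
      (by omega) (by omega)
    obtain ⟨rfl, rfl, -, hbb⟩ := decode1 M n n' a a' b b' o1 o1 (by omega) ha ha' hb hb'
      (by omega) (by omega) (by omega) (by omega) (by rw [← k1, ← k1', ← E1, ← E])
    obtain rfl := hbb (by omega)
    obtain ⟨rfl, e4, hcc⟩ := decode2 M n2 n2' c c' o2 o' (by omega) hc hc' (by omega)
      (by omega) (by omega) (by omega) (by rw [← k2, ← k2', ← E1', ← E'])
    have e5 : o2 = o' := by omega
    subst e5
    refine ⟨q, p, hqp, rfl, virt hqp (by omega) (by omega) (by omega) (by omega) ht, ?_⟩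
    have e1 := dist_formula hG (by omega : 0 < m) hxy hqp1 (by omega : s2 ≤ m)
      (by omega : min o2 1 ≤ m)
    have e2 := dist_formula hG (by omega : 0 < m) hxy hqp (by omega : s2 ≤ m)
      (by omega : min o2 1 ≤ m)
    rcases Nat.eq_zero_or_pos o2 with hz2 | hpos2
    · subst hz2
      rw [Nat.zero_min, Nat.cast_zero] at e1 e2
      rw [k3] at e1
      rw [k3'] at e2
      rw [Nat.zero_min]
      omega
    · have hmin : min o2 1 = 1 := by omega
      obtain rfl := hcc (by omega)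
      rw [hmin, Nat.cast_one] at e1 e2
      rw [k4] at e1
      rw [k4'] at e2
      rw [hmin]
      omega

/-- The main simulation: a win in `N` virtual rounds gives a win in `2 N + 1` real rounds. -/
theorem sim (hG : G.Connected) [Nontrivial V] (hm : 2 ≤ m) (hM : m + 26 ≤ M) :
    ∀ (N : ℕ) (S : Set (SubVert G M)) (T : Set (SubVert G m)) (o w : ℕ),
      CopWinsIn (subdiv G m) N T → Valid M m o w → Inv G M m o w S T →
      CopWinsIn (subdiv G M) (2 * N + 1) S := by
  intro N
  induction N with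
  | zero =>
    intro S T o w hT hv hinv
    exact capture hG hm hM hT hv hinv
  | succ N ih =>
    intro S T o w hT hv hinv
    rcases hT with hT | ⟨v, hT⟩
    · exact win_mono (by omega) (capture hG hm hM hT hv hinv)
    obtain ⟨x, y, s2, hxy, hs2, rfl⟩ := rep (nb_of_connected hG) v
    -- one round suffices
    have one : (∃ v, ∀ D, (nextSet (subdiv G M) S v D).Subsingleton ∨
        ∃ o' w' d, Valid M m o' w' ∧ Inv G M m o' w' (nextSet (subdiv G M) S v D)
          (nextSet (subdiv G m) T (P G m x y s2) d)) →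
        CopWinsIn (subdiv G M) (2 * (N + 1) + 1) S := by
      rintro ⟨v, hv⟩
      right
      refine ⟨v, fun D => ?_⟩
      rcases hv D with h | ⟨o', w', d, hval, hi⟩
      · exact win_of_subsingleton h
      · exact win_mono (by omega) (ih _ _ o' w' (hT d) hval hi)
    have midcase : ∀ o w, 4 ≤ o → 2 * o + 8 ≤ M → 1 ≤ w → w < m → w ≤ fd M m o + 1 →
        fd M m o ≤ w + 1 → Inv G M m o w S T →
        CopWinsIn (subdiv G M) (2 * (N + 1) + 1) S := by
      intro o w h1 h2 h3 h4 h5 h6 hinv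
      exact one (mid_round hG hm hM h1 h2 h3 h4 h5 h6 hinv hxy hs2)
    rcases hv with ⟨ho, rfl⟩ | ⟨h1, h2, h3, h4, h5, h6⟩ | ⟨rfl, h1, h2⟩
    · rcases Nat.eq_zero_or_pos s2 with rfl | hpos
      · exact one (near_round0 hG hm hM ho hinv hxy)
      · obtain ⟨v, hv⟩ := near_round1 hG hm hM ho hinv hxy hs2 hpos
        right
        refine ⟨v, fun D => ?_⟩
        rcases hv D with h | ⟨o', w', d, hval, hi⟩ | ⟨v', hv'⟩
        · exact win_of_subsingleton h
        · exact win_mono (by omega) (ih _ _ o' w' (hT d) hval hi)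
        · show CopWinsIn (subdiv G M) (2 * N + 1 + 1) _
          right
          refine ⟨v', fun D' => ?_⟩
          rcases hv' D' with h | ⟨o', w', d, hval, hi⟩
          · exact win_of_subsingleton h
          · exact ih _ _ o' w' (hT d) hval hi
    · exact midcase o w h1 h2 h3 h4 h5 h6 hinv
    · rcases le_or_gt (2 * o + 8) M with c1 | c1
      · have f := fd_top (o := o) hm hM (by omega)
        exact midcase o (m / 2) (by omega) c1 (by omega) (by omega) (by omega) (by omega) hinv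
      · rcases le_or_gt (M + 8) (2 * o) with c2 | c2
        · have f := fd_top (o := M - o) hm hM (by omega)
          refine midcase (M - o) (m - m / 2) (by omega) (by omega) (by omega) (by omega)
            (by omega) (by omega) ?_
          intro r hr
          obtain ⟨q, p, hqp, rfl, ht⟩ := hinv r hr
          refine ⟨p, q, hqp.symm, P_symm hqp (by omega), ?_⟩
          rwa [← P_symm hqp (by omega)]
        · exact one (middle_round hG hm hM (by omega) (by omega) hinv hxy hs2)

/-- **Main theorem.** -/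
theorem main (V : Type u) (G : SimpleGraph V) (hG : G.Connected) (m : ℕ) (hm : 2 ≤ m)
    (h : Locatable (subdiv G m)) (M : ℕ) (hM : m + 26 ≤ M) : Locatable (subdiv G M) := by
  rcases subsingleton_or_nontrivial V with hV | hV
  · -- a single vertex
    refine ⟨0, ?_⟩
    intro a _ b _
    obtain ⟨f, q, p, i, hqp, hi, hf⟩ := a
    obtain ⟨g, q', p', i', hqp', hi', hg⟩ := b
    apply Subtype.ext
    show f = g
    rw [hf, hg]
    obtain rfl : q = q' := Subsingleton.elim _ _
    obtain rfl : q = p := Subsingleton.elim _ _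
    obtain rfl : q = p' := Subsingleton.elim _ _
    rw [point_self q q hi, point_self q q hi']
  · obtain ⟨N, hN⟩ := h
    obtain ⟨x⟩ := hG.nonempty
    obtain ⟨y, hxy⟩ := nb_of_connected hG x
    refine ⟨2 * N + 1 + 1, ?_⟩
    right
    refine ⟨P G M x y 0, fun D => ?_⟩
    rcases (nextSet (subdiv G M) Set.univ (P G M x y 0) D).eq_empty_or_nonempty with
      h | ⟨r0, hr0, hD0⟩
    · exact win_of_subsingleton (by rw [h]; exact Set.subsingleton_empty)
    have key : ∀ r, (subdiv G M).dist (P G M x y 0) r = D →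
        ∃ q p o, G.Adj q p ∧ r = P G M q p o ∧ 2 * o ≤ M ∧ ∃ E, Rt M 0 o D m 0 0 E := by
      intro r hD
      obtain ⟨q, p, o, hqp, ho, rfl⟩ := rep (nb_of_connected hG) r
      refine ⟨q, p, o, hqp, rfl, ho, DZ m 0 0 (G.dist x q) (G.dist x p) (G.dist y q)
        (G.dist y p), ?_⟩
      · have e1 := dist_formula hG (by omega : 0 < M) hxy hqp (by omega : 0 ≤ M)
          (by omega : o ≤ M)
        rw [hD, Nat.cast_zero] at e1
        rw [e1]
        exact common M 0 o m 0 0 _ _ _ _ (quad hG hxy hqp) (by omega) (by omega) (by omega)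
          (by omega) (by omega) (by omega) (by omega) (by omega) (by omega) (by omega)
    obtain ⟨q0, p0, o, hqp0, rfl, ho, E0, R0⟩ := key r0 hD0
    have key1 : ∀ w, Inv G M m o w (nextSet (subdiv G M) Set.univ (P G M x y 0) D) Set.univ := by
      rintro w r ⟨-, hD⟩
      obtain ⟨q, p, o', hqp, rfl, ho', E, R⟩ := key r hD
      have e := decode_depth _ _ _ _ _ _ _ _ _ (by omega) (by omega) (by omega) (by omega)
        (by omega) R0 R
      have e1 : o = o' := by omega
      subst e1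
      exact ⟨q, p, hqp, rfl, Set.mem_univ _⟩
    have hval : ∃ w, Valid M m o w := by
      rcases le_or_gt o 3 with c | c
      · exact ⟨min o 1, Or.inl ⟨c, rfl⟩⟩
      · rcases le_or_gt (2 * o + 8) M with c1 | c1
        · have f1 := fd_pos (M := M) (m := m) (o := o) (by omega)
          have f2 := fd_le (M := M) (o := o) hm
          exact ⟨fd M m o, Or.inr (Or.inl ⟨by omega, by omega, by omega, by omega, by omega,
            by omega⟩)⟩
        · exact ⟨m / 2, Or.inr (Or.inr ⟨rfl, by omega, by omega⟩)⟩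
    obtain ⟨w, hw⟩ := hval
    exact sim hG hm hM N _ _ o w hN hw (key1 w)

end H34Rob
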