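import Pool.Agent.H34.Rob.Defs
import Pool.Agent.H34.Rob.Arith

/-! The points of `G^{1/M}` and their distances. -/

set_option autoImplicit false

namespace H34Rob

open SimpleGraph

universe u

variable {V : Type u} {G : SimpleGraph V} {M : ℕ}

open Classical in
/-- The point at distance `i` from `q` on the edge `qp`, as a vertex of `G^{1/M}`. -/
noncomputable def P (G : SimpleGraph V) (M : ℕ) (q p : V) (i : ℕ) : SubVert G M :=
  if h : (q = p ∨ G.Adj q p) ∧ i ≤ M then ⟨point M q p i, q, p, i, h.1, h.2, rfl⟩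
  else ⟨point M q q 0, q, q, 0, Or.inl rfl, Nat.zero_le _, rfl⟩

lemma P_val {q p : V} {i : ℕ} (h : G.Adj q p) (hi : i ≤ M) :
    (P G M q p i).1 = point M q p i := by
  unfold P
  rw [dif_pos ⟨Or.inr h, hi⟩]

lemma point_left {q p : V} {i : ℕ} (h : q ≠ p) : point M q p i q = M - i := by
  simp [point, h]

lemma point_right {q p : V} {i : ℕ} (h : q ≠ p) : point M q p i p = i := by
  simp [point, h.symm]

lemma point_other {q p z : V} {i : ℕ} (h : z ≠ q) (h' : z ≠ p) : point M q p i z = 0 := by
  simp [point, h, h']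

lemma point_zero (q p p' : V) : point M q p 0 = point M q p' 0 := by
  simp [point]

lemma point_self (q p : V) {i : ℕ} (hi : i ≤ M) : point M q q i = point M q p 0 := by
  classical
  funext z
  by_cases hz : z = q
  · subst hz
    simp [point, hi]
  · simp [point, hz]

lemma P_symm {q p : V} {i : ℕ} (h : G.Adj q p) (hi : i ≤ M) :
    P G M q p i = P G M p q (M - i) := by
  apply Subtype.ext
  rw [P_val h hi, P_val h.symm (Nat.sub_le _ _), point_symm M q p i hi]

lemma P_zero {q p p' : V} (h : G.Adj q p) (h' : G.Adj q p') : P G M q p 0 = P G M q p' 0 := by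
  apply Subtype.ext
  rw [P_val h (Nat.zero_le _), P_val h' (Nat.zero_le _), point_zero q p p']

lemma P_inj_int {x y q p : V} {i j : ℕ} (h : G.Adj x y) (h' : G.Adj q p) (hi : 0 < i)
    (hiM : i < M) (hj : j ≤ M) (he : P G M x y i = P G M q p j) :
    (x = q ∧ y = p ∧ i = j) ∨ (x = p ∧ y = q ∧ i + j = M) := by
  have he' : point M x y i = point M q p j := by
    rw [← P_val h hiM.le, ← P_val h' hj, he]
  have hxy := h.ne
  have hqp := h'.ne
  have e1 := congrFun he' x
  have e2 := congrFun he' y
  rw [point_left hxy] at e1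
  rw [point_right hxy] at e2
  have hx : x = q ∨ x = p := by
    by_contra hc
    push Not at hc
    rw [point_other hc.1 hc.2] at e1
    omega
  have hy : y = q ∨ y = p := by
    by_contra hc
    push Not at hc
    rw [point_other hc.1 hc.2] at e2
    omega
  rcases hx with rfl | rfl
  · rcases hy with rfl | rfl
    · exact absurd rfl hxy
    · rw [point_right hqp] at e2
      exact Or.inl ⟨rfl, rfl, e2⟩
  · rcases hy with rfl | rfl
    · rw [point_left hqp] at e2
      exact Or.inr ⟨rfl, rfl, by omega⟩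
    · exact absurd rfl hxy

lemma P_inj_hub {x y q p : V} {j : ℕ} (hM : 0 < M) (h : G.Adj x y) (h' : G.Adj q p)
    (hj : j ≤ M) (he : P G M x y 0 = P G M q p j) : (x = q ∧ j = 0) ∨ (x = p ∧ j = M) := by
  have he' : point M x y 0 = point M q p j := by
    rw [← P_val h (Nat.zero_le _), ← P_val h' hj, he]
  have hxy := h.ne
  have hqp := h'.ne
  have e1 := congrFun he' x
  rw [point_left hxy] at e1
  have hx : x = q ∨ x = p := by
    by_contra hc
    push Not at hc
    rw [point_other hc.1 hc.2] at e1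
    omega
  rcases hx with rfl | rfl
  · rw [point_left hqp] at e1
    exact Or.inl ⟨rfl, by omega⟩
  · rw [point_right hqp] at e1
    exact Or.inr ⟨rfl, by omega⟩

/-- Every vertex of `G^{1/M}` is a point in the half of an edge near its first end. -/
lemma rep (hnb : ∀ v, ∃ w, G.Adj v w) (r : SubVert G M) :
    ∃ q p i, G.Adj q p ∧ 2 * i ≤ M ∧ r = P G M q p i := by
  obtain ⟨f, q, p, i, h, hi, hf⟩ := r
  rcases h with rfl | h
  · obtain ⟨p, hp⟩ := hnb q
    refine ⟨q, p, 0, hp, by omega, Subtype.ext ?_⟩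
    exact hf.trans ((point_self q p hi).trans (P_val hp (Nat.zero_le _)).symm)
  · rcases le_or_gt (2 * i) M with h2 | h2
    · exact ⟨q, p, i, h, h2, Subtype.ext (hf.trans (P_val h hi).symm)⟩
    · refine ⟨p, q, M - i, h.symm, by omega, Subtype.ext ?_⟩
      exact hf.trans ((point_symm M q p i hi).trans (P_val h.symm (Nat.sub_le _ _)).symm)

lemma adj_succ {q p : V} {i : ℕ} (h : G.Adj q p) (hi : i < M) :
    (subdiv G M).Adj (P G M q p i) (P G M q p (i + 1)) :=
  ⟨q, p, i, h, hi, P_val h hi.le, P_val h hi⟩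

lemma adj_out {u r : SubVert G M} (ha : (subdiv G M).Adj u r) :
    ∃ x y j, G.Adj x y ∧ j < M ∧ u = P G M x y j ∧ r = P G M x y (j + 1) := by
  obtain ⟨x, y, j, hxy, hj, h1, h2⟩ := ha
  exact ⟨x, y, j, hxy, hj, Subtype.ext (by rw [P_val hxy hj.le, h1]),
    Subtype.ext (by rw [P_val hxy hj, h2])⟩

lemma adj_int {q p : V} {i : ℕ} {r : SubVert G M} (h : G.Adj q p) (hi : 0 < i) (hiM : i < M)
    (ha : (subdiv G M).Adj (P G M q p i) r) : r = P G M q p (i - 1) ∨ r = P G M q p (i + 1) := by
  obtain ⟨x, y, j, hxy, hj, h1, h2⟩ := adj_out ha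
  rcases P_inj_int h hxy hi hiM hj.le h1 with ⟨rfl, rfl, rfl⟩ | ⟨rfl, rfl, h3⟩
  · exact Or.inr h2
  · left
    rw [h2, P_symm hxy hj]
    congr 1
    omega

lemma adj_hub {q p : V} {r : SubVert G M} (hM : 0 < M) (h : G.Adj q p)
    (ha : (subdiv G M).Adj (P G M q p 0) r) : ∃ p', G.Adj q p' ∧ r = P G M q p' 1 := by
  obtain ⟨x, y, j, hxy, hj, h1, h2⟩ := adj_out ha
  rcases P_inj_hub hM h hxy hj.le h1 with ⟨rfl, rfl⟩ | ⟨rfl, rfl⟩
  · exact ⟨y, hxy, h2⟩
  · omega

/-! ### Walks -/

lemma edge_walk {q p : V} (h : G.Adj q p) (i k : ℕ) (hk : i + k ≤ M) :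
    ∃ w : (subdiv G M).Walk (P G M q p i) (P G M q p (i + k)), w.length = k := by
  induction k with
  | zero => exact ⟨Walk.nil, rfl⟩
  | succ k ih =>
    obtain ⟨w, hw⟩ := ih (by omega)
    exact ⟨w.concat (adj_succ h (by omega)), by rw [Walk.length_concat, hw]⟩

lemma edge_dist {q p : V} (h : G.Adj q p) (i j : ℕ) (hij : i ≤ j) (hj : j ≤ M) :
    (subdiv G M).dist (P G M q p i) (P G M q p j) ≤ j - i := by
  obtain ⟨k, rfl⟩ := Nat.exists_eq_add_of_le hij
  obtain ⟨w, hw⟩ := edge_walk h i k hj
  have := dist_le w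
  omega

lemma hub_walk {x z : V} (w : G.Walk x z) : ∀ {x' z' : V}, G.Adj x x' → G.Adj z z' →
    ∃ w' : (subdiv G M).Walk (P G M x x' 0) (P G M z z' 0), w'.length = M * w.length := by
  induction w with
  | nil =>
    intro x' z' h h'
    rw [P_zero h h']
    exact ⟨Walk.nil, by simp⟩
  | @cons x y z hxy w ih =>
    intro x' z' h h'
    obtain ⟨w1, hw1⟩ := ih hxy.symm h'
    obtain ⟨w2, hw2⟩ := edge_walk (M := M) hxy 0 M (by omega)
    have e : P G M x y (0 + M) = P G M y x 0 := by
      rw [Nat.zero_add, P_symm hxy le_rfl, Nat.sub_self]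
    have e2 : P G M x x' 0 = P G M x y 0 := P_zero h hxy
    refine ⟨(w2.copy e2.symm e).append w1, ?_⟩
    rw [Walk.length_append, Walk.length_copy, hw1, hw2, Walk.length_cons]
    ring

lemma hub_dist (hG : G.Connected) {x x' z z' : V} (h : G.Adj x x') (h' : G.Adj z z') :
    (subdiv G M).dist (P G M x x' 0) (P G M z z' 0) ≤ M * G.dist x z := by
  obtain ⟨w, hw⟩ := hG.exists_walk_length_eq_dist x z
  obtain ⟨w', hw'⟩ := hub_walk (M := M) w h h'
  rw [← hw, ← hw']
  exact dist_le w'

lemma nb_of_connected (hG : G.Connected) [Nontrivial V] (v : V) : ∃ w, G.Adj v w :=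
  hG.preconnected.exists_adj_of_nontrivial v

lemma sub_connected (hG : G.Connected) [Nontrivial V] : (subdiv G M).Connected := by
  obtain ⟨x⟩ := hG.nonempty
  obtain ⟨x', hx⟩ := nb_of_connected hG x
  have : Nonempty (SubVert G M) := ⟨P G M x x' 0⟩
  refine ⟨fun u v => ?_⟩
  have key : ∀ u : SubVert G M, (subdiv G M).Reachable (P G M x x' 0) u := by
    intro u
    obtain ⟨q, p, i, h, hi, rfl⟩ := rep (nb_of_connected hG) u
    obtain ⟨w, -⟩ := hG.exists_walk_length_eq_dist x q
    obtain ⟨w1, -⟩ := hub_walk (M := M) w hx h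
    obtain ⟨w2, -⟩ := edge_walk (M := M) h 0 i (by omega)
    rw [Nat.zero_add] at w2
    exact ⟨w1.append w2⟩
  exact (key u).symm.trans (key v)

/-! ### The distance formula -/

lemma quad (hG : G.Connected) {x y q p : V} (h : G.Adj x y) (h' : G.Adj q p) :
    Quad (G.dist x q) (G.dist x p) (G.dist y q) (G.dist y p) := by
  have d1 : G.dist x y = 1 := dist_eq_one_iff_adj.2 h
  have d1' : G.dist y x = 1 := dist_eq_one_iff_adj.2 h.symm
  have d2 : G.dist q p = 1 := dist_eq_one_iff_adj.2 h'
  have d2' : G.dist p q = 1 := dist_eq_one_iff_adj.2 h'.symm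
  have t1 := hG.dist_triangle (u := x) (v := q) (w := p)
  have t2 := hG.dist_triangle (u := x) (v := p) (w := q)
  have t3 := hG.dist_triangle (u := y) (v := q) (w := p)
  have t4 := hG.dist_triangle (u := y) (v := p) (w := q)
  have t5 := hG.dist_triangle (u := x) (v := y) (w := q)
  have t6 := hG.dist_triangle (u := y) (v := x) (w := q)
  have t7 := hG.dist_triangle (u := x) (v := y) (w := p)
  have t8 := hG.dist_triangle (u := y) (v := x) (w := p)
  have z1 : G.dist x q = 0 → G.dist y q = 1 ∧ G.dist x p = 1 := by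
    intro h0
    obtain rfl := hG.dist_eq_zero_iff.1 h0
    exact ⟨d1', d2⟩
  have z2 : G.dist x p = 0 → G.dist x q = 1 ∧ G.dist y p = 1 := by
    intro h0
    obtain rfl := hG.dist_eq_zero_iff.1 h0
    exact ⟨d2', d1'⟩
  have z3 : G.dist y q = 0 → G.dist x q = 1 ∧ G.dist y p = 1 := by
    intro h0
    obtain rfl := hG.dist_eq_zero_iff.1 h0
    exact ⟨d1, d2⟩
  have z4 : G.dist y p = 0 → G.dist y q = 1 ∧ G.dist x p = 1 := by
    intro h0
    obtain rfl := hG.dist_eq_zero_iff.1 h0
    exact ⟨d2', d1⟩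
  constructor <;> omega

lemma DZ_zero (M s a ap b bp : ℤ) (h : Quad a ap b bp) (hs : 0 ≤ s) (hsM : s ≤ M) :
    DZ M s 0 a ap b bp = min (s + M * a) (M - s + M * b) := by
  obtain ⟨a0, ap0, b0, bp0, aap, ab, bbp, apbp, az, apz, bz, bpz⟩ := h
  by_cases h1 : a = 0 ∧ bp = 0
  · obtain ⟨rfl, rfl⟩ := h1
    obtain ⟨rfl, rfl⟩ := az rfl
    simp [DZ]
    omega
  · by_cases h2 : ap = 0 ∧ b = 0
    · obtain ⟨rfl, rfl⟩ := h2
      obtain ⟨rfl, rfl⟩ := apz rfl
      simp [DZ]
      omega
    · unfold DZ
      simp only [h1, h2, if_false]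
      have u1 : M * a ≤ M * (ap + 1) := mul_le_mul_of_nonneg_left (by omega) (by omega)
      have u2 : M * b ≤ M * (bp + 1) := mul_le_mul_of_nonneg_left (by omega) (by omega)
      rw [mul_add, mul_one] at u1 u2
      omega

lemma DZ_step (M s i a ap b bp : ℤ) :
    DZ M s (i + 1) a ap b bp ≤ DZ M s i a ap b bp + 1 ∧
    DZ M s i a ap b bp ≤ DZ M s (i + 1) a ap b bp + 1 := by
  unfold DZ
  split_ifs
  · omega
  · omega
  · generalize M * a = A
    generalize M * b = B
    generalize M * ap = C
    generalize M * bp = D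
    omega

/-- The lower bound for the distance. -/
lemma dist_lower (hG : G.Connected) {x y : V} {s : ℕ} (hxy : G.Adj x y) (hs : s ≤ M)
    (hM : 0 < M) {r u : SubVert G M} (w : (subdiv G M).Walk r u) :
    u = P G M x y s → ∀ q p i, G.Adj q p → i ≤ M → r = P G M q p i →
      DZ M s i (G.dist x q) (G.dist x p) (G.dist y q) (G.dist y p) ≤ w.length := by
  induction w with
  | nil =>
    rintro rfl q p i hqp hi hr
    have hq := quad hG hxy hqp
    simp only [Walk.length_nil, Nat.cast_zero]
    rcases Nat.eq_zero_or_pos s with rfl | hs0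
    · rcases P_inj_hub hM hxy hqp hi hr with ⟨rfl, rfl⟩ | ⟨rfl, rfl⟩
      · rw [Nat.cast_zero, DZ_zero _ _ _ _ _ _ hq le_rfl (by omega)]
        simp
      · rw [DZ_swap _ _ _ _ _ _ _ hq, sub_self, Nat.cast_zero,
          DZ_zero _ _ _ _ _ _ hq.swap le_rfl (by omega)]
        simp
    · rcases lt_or_eq_of_le hs with hsM | rfl
      · rcases P_inj_int hxy hqp hs0 hsM hi hr with ⟨rfl, rfl, rfl⟩ | ⟨rfl, rfl, h3⟩
        · simp [DZ]
        · have h1 : G.dist x y = 1 := dist_eq_one_iff_adj.2 hxy
          simp [DZ, h1]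
          omega
      · have hr' : P G s y x 0 = P G s q p i := by
          rw [← hr, P_symm hxy le_rfl, Nat.sub_self]
        rcases P_inj_hub hM hxy.symm hqp hi hr' with ⟨rfl, rfl⟩ | ⟨rfl, rfl⟩
        · rw [Nat.cast_zero, DZ_zero _ _ _ _ _ _ hq (by omega) le_rfl]
          simp
        · rw [DZ_swap _ _ _ _ _ _ _ hq, sub_self,
            DZ_zero _ _ _ _ _ _ hq.swap (by omega) le_rfl]
          simp
  | @cons r r' u ha w ih =>
    rintro rfl q p i hqp hi rfl
    have ih := ih rfl
    have hq := quad hG hxy hqp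
    rw [Walk.length_cons]
    push_cast
    -- the case of a hub
    have hub : ∀ q p, G.Adj q p → (subdiv G M).Adj (P G M q p 0) r' →
        DZ M s 0 (G.dist x q) (G.dist x p) (G.dist y q) (G.dist y p) ≤ w.length + 1 := by
      intro q p hqp ha
      obtain ⟨p', hp', hr'⟩ := adj_hub hM hqp ha
      have h1 := ih q p' 1 hp' (by omega) hr'
      have h2 := (DZ_step M s 0 (G.dist x q) (G.dist x p') (G.dist y q) (G.dist y p')).2
      rw [DZ_zero _ _ _ _ _ _ (quad hG hxy hp') (by omega) (by omega)] at h2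
      rw [DZ_zero _ _ _ _ _ _ (quad hG hxy hqp) (by omega) (by omega)]
      push_cast at h1
      rw [zero_add] at h2
      omega
    rcases Nat.eq_zero_or_pos i with rfl | hi0
    · exact hub q p hqp ha
    · rcases lt_or_eq_of_le hi with hiM | rfl
      · rcases adj_int hqp hi0 hiM ha with h1 | h1
        · have h2 := ih q p (i - 1) hqp (by omega) h1
          have h3 := (DZ_step M s (i - 1 : ℕ) (G.dist x q) (G.dist x p) (G.dist y q)
            (G.dist y p)).1
          have e : ((i - 1 : ℕ) : ℤ) + 1 = i := by omega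
          rw [e] at h3
          omega
        · have h2 := ih q p (i + 1) hqp (by omega) h1
          have h3 := (DZ_step M s i (G.dist x q) (G.dist x p) (G.dist y q) (G.dist y p)).2
          push_cast at h2
          omega
      · have ha' : (subdiv G i).Adj (P G i p q 0) r' := by
          have e : P G i q p i = P G i p q 0 := by
            rw [P_symm hqp le_rfl, Nat.sub_self]
          rwa [e] at ha
        have h1 := hub p q hqp.symm ha'
        rw [DZ_swap _ _ _ _ _ _ _ hq, sub_self]
        exact h1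

theorem dist_formula (hG : G.Connected) [Nontrivial V] (hM : 0 < M) {x y q p : V} {s i : ℕ}
    (hxy : G.Adj x y) (hqp : G.Adj q p) (hs : s ≤ M) (hi : i ≤ M) :
    ((subdiv G M).dist (P G M x y s) (P G M q p i) : ℤ) =
      DZ M s i (G.dist x q) (G.dist x p) (G.dist y q) (G.dist y p) := by
  have hA : (subdiv G M).Connected := sub_connected hG
  apply le_antisymm
  · have e1 : (subdiv G M).dist (P G M x y s) (P G M x y 0) ≤ s := by
      rw [SimpleGraph.dist_comm]
      exact edge_dist hxy 0 s (by omega) hs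
    have e2 : (subdiv G M).dist (P G M x y s) (P G M y x 0) ≤ M - s := by
      have h := edge_dist hxy s M hs le_rfl
      rwa [P_symm hxy (le_refl M), Nat.sub_self] at h
    have e3 : (subdiv G M).dist (P G M q p 0) (P G M q p i) ≤ i :=
      edge_dist hqp 0 i (by omega) hi
    have e4 : (subdiv G M).dist (P G M p q 0) (P G M q p i) ≤ M - i := by
      have h := edge_dist hqp i M hi le_rfl
      rw [P_symm hqp (le_refl M), Nat.sub_self] at h
      rwa [SimpleGraph.dist_comm]
    have f1 := hub_dist (M := M) hG hxy hqp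
    have f2 := hub_dist (M := M) hG hxy hqp.symm
    have f3 := hub_dist (M := M) hG hxy.symm hqp
    have f4 := hub_dist (M := M) hG hxy.symm hqp.symm
    have t1 := hA.dist_triangle (u := P G M x y s) (v := P G M x y 0) (w := P G M q p i)
    have t2 := hA.dist_triangle (u := P G M x y s) (v := P G M y x 0) (w := P G M q p i)
    have t3 := hA.dist_triangle (u := P G M x y 0) (v := P G M q p 0) (w := P G M q p i)
    have t4 := hA.dist_triangle (u := P G M x y 0) (v := P G M p q 0) (w := P G M q p i)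
    have t5 := hA.dist_triangle (u := P G M y x 0) (v := P G M q p 0) (w := P G M q p i)
    have t6 := hA.dist_triangle (u := P G M y x 0) (v := P G M p q 0) (w := P G M q p i)
    unfold DZ
    by_cases h1 : (G.dist x q : ℤ) = 0 ∧ (G.dist y p : ℤ) = 0
    · rw [if_pos h1]
      obtain ⟨h1, h2⟩ := h1
      rw [Nat.cast_eq_zero] at h1 h2
      obtain rfl := hG.dist_eq_zero_iff.1 h1
      obtain rfl := hG.dist_eq_zero_iff.1 h2
      rcases le_total s i with h | h
      · have := edge_dist (M := M) hxy s i h hi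
        omega
      · have := edge_dist (M := M) hxy i s h hs
        rw [SimpleGraph.dist_comm] at this
        omega
    · rw [if_neg h1]
      by_cases h2 : (G.dist x p : ℤ) = 0 ∧ (G.dist y q : ℤ) = 0
      · rw [if_pos h2]
        obtain ⟨h1, h2⟩ := h2
        rw [Nat.cast_eq_zero] at h1 h2
        obtain rfl := hG.dist_eq_zero_iff.1 h1
        obtain rfl := hG.dist_eq_zero_iff.1 h2
        rw [P_symm hqp hi]
        rcases le_total s (M - i) with h | h
        · have := edge_dist (M := M) hxy s (M - i) h (by omega)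
          omega
        · have := edge_dist (M := M) hxy (M - i) s h hs
          rw [SimpleGraph.dist_comm] at this
          omega
      · rw [if_neg h2]
        omega
  · obtain ⟨w, hw⟩ := hA.exists_walk_length_eq_dist (P G M q p i) (P G M x y s)
    have h := dist_lower hG hxy hs hM w rfl q p i hqp hi rfl
    rw [SimpleGraph.dist_comm (G := subdiv G M), ← hw]
    exact h

end H34Rob
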